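import Pool.Agent.Run7.h583.Lp
import Pool.Agent.Run7.h583.T.Top

/-!
# The size of `B₂[g]` sets in an initial interval: `F₂(g; n)² ≤ (20 / 7) g n`

The set `A` of `N` integers in `{1, …, n}` gives the step function with the value `n / N` on the
intervals `[(a - 1) / n, a / n)`, `a ∈ A`, a density on `[0, 1]`. Its autoconvolution is at most
`2 g n / N²`, and by the inequality for autoconvolutions it is at least `7 / 10` at some point.
-/

set_option autoImplicit false

open MeasureTheory Set
open scoped ENNReal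

namespace Pool.Agent.Results.MP_a42607_nt.AllSizes

/-- `A` is a `B₂[g]` set: every integer `m` has at most `g` representations `m = a + a'` with
`a, a' ∈ A` and `a ≤ a'`. -/
def IsB2 (g : ℕ) (A : Finset ℕ) : Prop :=
  ∀ m : ℕ, ((A ×ˢ A).filter fun q => q.1 ≤ q.2 ∧ q.1 + q.2 = m).card ≤ g

open Classical in
/-- `F₂(g; n)`: the largest cardinality of a subset of `{1, …, n}` that is a `B₂[g]` set. -/
noncomputable def F2 (g n : ℕ) : ℕ :=
  ((Finset.Icc 1 n).powerset.filter (IsB2 g)).sup Finset.card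

/-- the number of ordered representations is at most `2 g` -/
theorem card_le {g : ℕ} {A : Finset ℕ} (h : IsB2 g A) (m : ℕ) :
    ((A ×ˢ A).filter fun q => q.1 + q.2 = m).card ≤ 2 * g := by
  classical
  have h1 : ((A ×ˢ A).filter fun q => q.1 + q.2 = m) ⊆
      ((A ×ˢ A).filter fun q => q.1 ≤ q.2 ∧ q.1 + q.2 = m) ∪
        ((A ×ˢ A).filter fun q => q.1 ≤ q.2 ∧ q.1 + q.2 = m).image Prod.swap := by
    intro q hq
    rw [Finset.mem_filter, Finset.mem_product] at hq
    rw [Finset.mem_union, Finset.mem_image]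
    rcases le_total q.1 q.2 with hl | hl
    · left
      rw [Finset.mem_filter, Finset.mem_product]
      exact ⟨hq.1, hl, hq.2⟩
    · right
      refine ⟨q.swap, ?_, by simp⟩
      rw [Finset.mem_filter, Finset.mem_product]
      exact ⟨⟨hq.1.2, hq.1.1⟩, hl, by rw [Prod.fst_swap, Prod.snd_swap, add_comm]; exact hq.2⟩
  refine (Finset.card_le_card h1).trans ((Finset.card_union_le _ _).trans ?_)
  have h2 := (Finset.card_image_le (s := (A ×ˢ A).filter fun q => q.1 ≤ q.2 ∧ q.1 + q.2 = m)
    (f := Prod.swap)).trans (h m)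
  have h3 := h m
  omega

/-- the inequality for autoconvolutions -/
theorem le_of_bound {f : ℝ → ℝ} (hf : Run7.h583.IsUnitDensity f) {C : ℝ}
    (hC : ∀ x, ‖Run7.h583.autoconv f x‖ ≤ C) : 7 / 10 ≤ C := by
  have h1 : ENNReal.ofReal (7 / 10 * (2 / 3) ^ (1 / (∞ : ℝ≥0∞).toReal)) ≤ Run7.h583.c ∞ := by
    refine Run7.h583.le_c (by norm_num) (fun M m hg => ?_) ∞ le_top
    have h := Run7.h583.Claim.final Run7.h583.T.root hg
    norm_num at h
    linarith
  have h2 : Run7.h583.c ∞ ≤ ENNReal.ofReal C := by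
    refine (iInf_le _ (⟨f, hf⟩ : {f : ℝ → ℝ // Run7.h583.IsUnitDensity f})).trans ?_
    rw [eLpNorm_exponent_top]
    exact eLpNormEssSup_le_of_ae_bound (Filter.Eventually.of_forall hC)
  have h3 := h1.trans h2
  have hC0 : 0 ≤ C := (norm_nonneg _).trans (hC 0)
  rw [ENNReal.ofReal_le_ofReal_iff hC0] at h3
  simpa using h3

/-- the cell `[(m - 1) / n, m / n)` -/
noncomputable def cell (n : ℕ) (m : ℝ) (t : ℝ) : ℝ :=
  (Ico ((m - 1) / n) (m / n)).indicator (fun _ => (1 : ℝ)) t

theorem cell_nonneg (n : ℕ) (m t : ℝ) : 0 ≤ cell n m t :=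
  indicator_nonneg (fun _ _ => zero_le_one) t

theorem cell_le (n : ℕ) (m t : ℝ) : cell n m t ≤ 1 := by
  unfold cell
  exact indicator_le' (fun _ _ => le_rfl) (fun _ _ => zero_le_one) t

theorem cell_eq (n : ℕ) (hn : 0 < n) (m t : ℝ) :
    cell n m t = if m - 1 ≤ n * t ∧ n * t < m then 1 else 0 := by
  have hn' : (0 : ℝ) < n := by exact_mod_cast hn
  unfold cell
  rw [indicator_apply]
  have : t ∈ Ico ((m - 1) / n) (m / n) ↔ m - 1 ≤ n * t ∧ n * t < m := by
    rw [mem_Ico, div_le_iff₀ hn', lt_div_iff₀ hn', mul_comm t]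
  simp only [this]

theorem measurable_cell (n : ℕ) (m : ℝ) : Measurable (cell n m) :=
  measurable_const.indicator measurableSet_Ico

theorem integrable_cell (n : ℕ) (m : ℝ) : Integrable (cell n m) := by
  unfold cell
  rw [integrable_indicator_iff measurableSet_Ico]
  exact integrableOn_const (by simp)

theorem integral_cell (n : ℕ) (hn : 0 < n) (m : ℝ) : ∫ t, cell n m t = 1 / n := by
  have hn' : (0 : ℝ) < n := by exact_mod_cast hn
  unfold cell
  rw [integral_indicator measurableSet_Ico]
  simp only [integral_const, smul_eq_mul, mul_one]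
  rw [measureReal_restrict_apply_univ, Real.volume_real_Ico_of_le (by gcongr; linarith)]
  ring

theorem integrable_mul_cell (n : ℕ) (m m' x : ℝ) :
    Integrable (fun t => cell n m t * cell n m' (x - t)) := by
  refine (integrable_cell n m).mono' ?_ (Filter.Eventually.of_forall fun t => ?_)
  · exact ((measurable_cell n m).mul ((measurable_cell n m').comp
      (measurable_const.sub measurable_id))).aestronglyMeasurable
  · rw [Real.norm_of_nonneg (mul_nonneg (cell_nonneg _ _ _) (cell_nonneg _ _ _))]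
    exact mul_le_of_le_one_right (cell_nonneg _ _ _) (cell_le _ _ _)

/-- the integral depends on the sum only -/
theorem shift (n : ℕ) (hn : 0 < n) (m m' x : ℝ) :
    ∫ t, cell n m t * cell n m' (x - t) = ∫ s, cell n 1 s * cell n (m + m' - 1) (x - s) := by
  have hn' : (0 : ℝ) < n := by exact_mod_cast hn
  rw [← integral_add_right_eq_self (fun t => cell n m t * cell n m' (x - t)) ((m - 1) / n)]
  congr 1
  funext s
  rw [cell_eq n hn, cell_eq n hn, cell_eq n hn, cell_eq n hn]
  have e1 : (n : ℝ) * (s + (m - 1) / n) = n * s + (m - 1) := by field_simp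
  have e2 : (n : ℝ) * (x - (s + (m - 1) / n)) = n * (x - s) - (m - 1) := by field_simp; ring
  rw [e1, e2]
  congr 1
  · congr 1
    apply propext
    constructor <;> rintro ⟨h1, h2⟩ <;> constructor <;> linarith
  · congr 1
    apply propext
    constructor <;> rintro ⟨h1, h2⟩ <;> constructor <;> linarith

/-- at most `2 g` pairs have a sum whose cell contains a given point -/
theorem sum_cell_le {g : ℕ} {A : Finset ℕ} (h : IsB2 g A) (n : ℕ) (hn : 0 < n) (y : ℝ) :
    ∑ q ∈ A ×ˢ A, cell n ((q.1 : ℝ) + q.2 - 1) y ≤ 2 * g := by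
  classical
  by_cases hex : ∃ q ∈ A ×ˢ A, cell n ((q.1 : ℝ) + q.2 - 1) y ≠ 0
  · obtain ⟨q0, hq0, hne⟩ := hex
    have h0 : ((q0.1 : ℝ) + q0.2 - 1) - 1 ≤ n * y ∧ n * y < (q0.1 : ℝ) + q0.2 - 1 := by
      by_contra hc
      rw [cell_eq n hn, if_neg hc] at hne
      exact hne rfl
    have h1 : ∀ q ∈ A ×ˢ A, cell n ((q.1 : ℝ) + q.2 - 1) y ≤
        if q.1 + q.2 = q0.1 + q0.2 then 1 else 0 := by
      intro q _
      split_ifs with hq
      · exact cell_le _ _ _
      · rw [cell_eq n hn]
        rw [if_neg]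
        rintro ⟨h2, h3⟩
        apply hq
        have a1 : ((q.1 + q.2 : ℕ) : ℝ) < ((q0.1 + q0.2 + 1 : ℕ) : ℝ) := by
          push_cast; linarith [h0.2]
        have a2 : ((q0.1 + q0.2 : ℕ) : ℝ) < ((q.1 + q.2 + 1 : ℕ) : ℝ) := by
          push_cast; linarith [h0.1]
        have a1' := Nat.cast_lt.1 a1
        have a2' := Nat.cast_lt.1 a2
        omega
    refine (Finset.sum_le_sum h1).trans ?_
    rw [Finset.sum_boole]
    exact_mod_cast card_le h _
  · push Not at hex
    rw [Finset.sum_eq_zero hex]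
    positivity

/-- the step function of `A` -/
noncomputable def st (n : ℕ) (A : Finset ℕ) (t : ℝ) : ℝ :=
  (n / A.card) * ∑ a ∈ A, cell n a t

theorem isUnitDensity {n : ℕ} (hn : 0 < n) {A : Finset ℕ} (hA : A ⊆ Finset.Icc 1 n)
    (hN : 0 < A.card) : Run7.h583.IsUnitDensity (st n A) := by
  have hn' : (0 : ℝ) < n := by exact_mod_cast hn
  have hN' : (0 : ℝ) < A.card := by exact_mod_cast hN
  refine ⟨?_, fun x => ?_, fun x hx => ?_, ?_⟩
  · exact (integrable_finsetSum A fun a _ => integrable_cell n a).const_mul _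
  · exact mul_nonneg (by positivity) (Finset.sum_nonneg fun a _ => cell_nonneg _ _ _)
  · unfold st
    rw [Finset.sum_eq_zero, mul_zero]
    intro a ha
    have ha' := Finset.mem_Icc.1 (hA ha)
    have a1 : (1 : ℝ) ≤ a := by exact_mod_cast ha'.1
    have a2 : (a : ℝ) ≤ n := by exact_mod_cast ha'.2
    rw [cell_eq n hn, if_neg]
    rintro ⟨h1, h2⟩
    apply hx
    constructor
    · by_contra hc
      nlinarith [not_le.1 hc]
    · by_contra hc
      nlinarith [not_le.1 hc]
  · unfold st
    rw [integral_const_mul, integral_finsetSum A fun a _ => integrable_cell n a]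
    simp only [integral_cell n hn]
    rw [Finset.sum_const, nsmul_eq_mul]
    field_simp

theorem autoconv_le {g n : ℕ} (hn : 0 < n) {A : Finset ℕ} (hN : 0 < A.card) (h : IsB2 g A)
    (x : ℝ) : Run7.h583.autoconv (st n A) x ≤ 2 * g * n / (A.card : ℝ) ^ 2 := by
  have hn' : (0 : ℝ) < n := by exact_mod_cast hn
  have hN' : (0 : ℝ) < A.card := by exact_mod_cast hN
  unfold Run7.h583.autoconv
  have e1 : (fun t => st n A t * st n A (x - t)) = fun t =>
      (n / A.card : ℝ) ^ 2 * ∑ q ∈ A ×ˢ A, cell n q.1 t * cell n q.2 (x - t) := by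
    funext t
    unfold st
    rw [Finset.sum_product]
    simp only [← Finset.mul_sum, ← Finset.sum_mul]
    ring
  rw [e1, integral_const_mul, integral_finsetSum _ fun q _ => integrable_mul_cell n _ _ x]
  have e2 : ∀ q ∈ A ×ˢ A, ∫ t, cell n (q.1 : ℝ) t * cell n (q.2 : ℝ) (x - t) =
      ∫ s, cell n 1 s * cell n ((q.1 : ℝ) + q.2 - 1) (x - s) := fun q _ => shift n hn _ _ x
  rw [Finset.sum_congr rfl e2, ← integral_finsetSum _ fun q _ => integrable_mul_cell n _ _ x]
  have e3 : ∫ s, ∑ q ∈ A ×ˢ A, cell n 1 s * cell n ((q.1 : ℝ) + q.2 - 1) (x - s) ≤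
      ∫ s, cell n 1 s * (2 * g) := by
    refine integral_mono (integrable_finsetSum _ fun q _ => integrable_mul_cell n _ _ x)
      ((integrable_cell n 1).mul_const _) fun s => ?_
    simp only
    rw [← Finset.mul_sum]
    exact mul_le_mul_of_nonneg_left (sum_cell_le h n hn _) (cell_nonneg _ _ _)
  rw [integral_mul_const, integral_cell n hn] at e3
  refine (mul_le_mul_of_nonneg_left e3 (by positivity)).trans (le_of_eq ?_)
  field_simp

/-- **The bound.** For all `g` and `n`, `F₂(g; n) ≤ √((20 / 7) g n)`. -/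
theorem result (g n : ℕ) : (F2 g n : ℝ) ≤ √(20 / 7 * (g * n)) := by
  classical
  apply Real.le_sqrt_of_sq_le
  -- a largest set
  have hne : ((Finset.Icc 1 n).powerset.filter (IsB2 g)).Nonempty := by
    refine ⟨∅, ?_⟩
    rw [Finset.mem_filter]
    exact ⟨Finset.empty_mem_powerset _, fun m => by simp⟩
  obtain ⟨A, hA, hF⟩ := Finset.exists_mem_eq_sup _ hne Finset.card
  rw [Finset.mem_filter, Finset.mem_powerset] at hA
  have hF' : F2 g n = A.card := hF
  rw [hF']
  rcases Nat.eq_zero_or_pos A.card with h0 | hN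
  · rw [h0]
    simp only [Nat.cast_zero, ne_eq, OfNat.ofNat_ne_zero, not_false_eq_true, zero_pow]
    positivity
  · have hn : 0 < n := by
      obtain ⟨a, ha⟩ := Finset.card_pos.1 hN
      have := Finset.mem_Icc.1 (hA.1 ha)
      omega
    have hN' : (0 : ℝ) < A.card := by exact_mod_cast hN
    have hd := isUnitDensity hn hA.1 hN
    have h1 := le_of_bound hd (C := 2 * g * n / (A.card : ℝ) ^ 2) fun x => by
      have h0 : 0 ≤ Run7.h583.autoconv (st n A) x :=
        integral_nonneg fun t => mul_nonneg (hd.2.1 _) (hd.2.1 _)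
      rw [Real.norm_of_nonneg h0]
      exact autoconv_le hn hN hA.2 x
    rw [le_div_iff₀ (by positivity)] at h1
    linarith

end Pool.Agent.Results.MP_a42607_nt.AllSizes
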